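import Pool.Agent.Q54.KD.Main

/-!
# A unital irreducible Jordan supermodule over a Kantor double that is not a Kantor double

Over every field `F` of characteristic not two there is a simple unital dot-bracket superalgebra `A`
with a nonzero Jordan bracket (the even algebra `F(t)` with `{a, b} = a' b - a b'`) and a unital
irreducible Jordan supermodule over `Kan(A)` that is not isomorphic to `Kan(V)` for any dot-bracket
supermodule `V` with a Jordan bracket over `A`: no linear isomorphism even commutes with the left
action of `A`.
-/

set_option autoImplicit false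

universe u

open Q54.KD

theorem Pool.Agent.Results.MP_ba200f_al.NotKantorDouble.result (F : Type u) [Field F]
    (h2 : (2 : F) ≠ 0) :
    ∃ (A : Type u) (_ : AddCommGroup A) (_ : Module F A) (dot br : A → A → A) (e : A),
      IsDotBracket F (fun a : A => a) dot br ∧
      IsJordanBracket F (fun a : A => a) dot br ∧
      IsIdentity dot e ∧
      IsSimple F dot br ∧
      (∃ a b, br a b ≠ 0) ∧
      ∃ (M : Type u) (_ : AddCommGroup M) (_ : Module F M) (ρ : M → M) (l : A × A → M → M)
        (r : M → A × A → M),
        IsJordanSupermodule F (kanσ fun a : A => a) (kan (fun a : A => a) dot br) ρ l r ∧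
        (∀ m, l (e, 0) m = m ∧ r m (e, 0) = m) ∧
        IsIrreducible F ρ l r ∧
        ∀ (V : Type u) (_ : AddCommGroup V) (_ : Module F V) (τ : V → V) (dl bl : A → V → V)
          (dr br' : V → A → V),
          IsDotBracketSupermodule F (fun a : A => a) dot br τ dl dr bl br' →
          ∀ φ : M ≃ₗ[F] V × V, ∃ (a : A) (m : M),
            φ (l (a, 0) m) ≠ kanLeft τ dl bl (a, 0) (φ m) := by
  have : NeZero (2 : F) := ⟨h2⟩
  have hθ : ∀ f : KX F, (Tau F).toLinearMap (tX F * f) = (tX F + 1) * (Tau F).toLinearMap f := by
    intro f
    change Tau F (tX F * f) = (tX F + 1) * Tau F f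
    rw [map_mul, Tau_t]
  have h1 : (Tau F).toLinearMap 1 ≠ 0 := by
    change Tau F 1 ≠ 0
    rw [map_one]
    exact one_ne_zero
  have hD : dX F (tX F) ≠ 0 := by
    rw [dX_t]
    exact one_ne_zero
  exact ⟨KX F, inferInstance, inferInstance, fun a b => a * b, brD (dX F), 1,
    counterexample (dX F) hθ h1 hD⟩
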